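import Pool.Agent.H930R3.BK.E

/-!
# The leading coefficient and the products of Birch and Swinnerton-Dyer: the exact constant

`C : y² = x³ + a x + b` is an elliptic curve over `ℚ`, `F` the entire function which extends its
(incomplete) `L`-series, `m` the order of `F` at `s = 1` and `c` the leading coefficient.  The
`L`-function without the Euler factors at the good primes `p ≤ x` has the leading coefficient
`c ∏_{p ≤ x} #C(𝔽_p) / p`.  Let `R(x)` be its absolute value divided by `(e ^ γ log x) ^ m`, and let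
`Q(x) = ∑_{√x < p ≤ x} (a_p² - 2 p) / (2 p²)`.

Goldfeld proved: if `R(x)` converges, the limit is `√2` (and the Riemann hypothesis holds for
`L(C, s)`).  Here, unconditionally:

1. `limsup R(x) exp(Q(x)) ≥ 1`, and `limsup R(x) ≥ 1/2`;

2. if `L(C, s)` has no real zero greater than `1`, then `liminf R(x) exp(Q(x)) ≤ 1` and
`liminf R(x) ≤ 2`.

All this is also true for the logarithmic averages of the logarithms, and it is proved with
`R(x) exp(θ Q(x))` and the constants `2 ^ (θ - 1)`, `2 ^ (1 - θ)` for every `0 ≤ θ ≤ 1`.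
-/

set_option autoImplicit false

open Filter Topology

namespace Pool.Agent.Results.MP_92892c_nt.ExactConstant

open Pool.Agent.H438R3.BSD Pool.Agent.H930R3.BK

/-- The constant in the products of Birch and Swinnerton-Dyer. -/
theorem result (a b : ℤ) (_hab : 4 * a ^ 3 + 27 * b ^ 2 ≠ 0) (F : ℂ → ℂ) (hF : IsL a b F) :
    ∃ (m : ℕ) (c : ℂ), analyticOrderAt F 1 = m ∧ c ≠ 0 ∧
    (∀ x : ℕ, Tendsto (fun s : ℂ => TL a b F x s / (s - 1) ^ m) (𝓝[≠] 1) (𝓝 (c * (EP a b x : ℂ)))) ∧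
    ∀ θ : ℝ, 0 ≤ θ → θ ≤ 1 → ∀ δ : ℝ, 0 < δ →
      ((∃ᶠ x : ℕ in atTop, -((1 - θ) * Real.log 2) - δ < LR a b m ‖c‖ θ x) ∧
        ∃ᶠ x : ℕ in atTop, (1 - δ) / 2 ^ (1 - θ) < RR a b m ‖c‖ θ x) ∧
      ((∀ σ : ℝ, 1 < σ → F σ ≠ 0) →
        (∃ᶠ x : ℕ in atTop, LR a b m ‖c‖ θ x < (1 - θ) * Real.log 2 + δ) ∧
        ∃ᶠ x : ℕ in atTop, RR a b m ‖c‖ θ x < (1 + δ) * 2 ^ (1 - θ)) :=
  main hF

end Pool.Agent.Results.MP_92892c_nt.ExactConstant
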